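import Pool.Agent.Mg.F6026f4p.G6a5b2c

namespace Pool.Agent.Results.MP_6026f4_co.ChenXia

open Pool.Agent.MP_6026f4_co

/-- The Apery numbers `a_n(2,1)` are infinitely log-convex. -/
theorem result : IsInfLogConvex (fun n => (apery 2 1 n : ℝ)) := by
  intro k hk n
  obtain ⟨j, rfl⟩ := Nat.exists_eq_add_of_le' hk
  exact (CX.fine j n).1.le

end Pool.Agent.Results.MP_6026f4_co.ChenXia
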