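import Pool.Agent.Mg.F6026f4p.G489bc4
import Pool.Agent.Mg.F6026f4p.G769016
import Pool.Agent.Mg.F6026f4p.G56bf26
import Pool.Agent.Mg.F6026f4p.G8090c1
import Pool.Agent.Mg.F6026f4p.G15cdcf
import Pool.Agent.Mg.F6026f4p.G522854

open Pool.Agent.MP_6026f4_co

theorem Pool.Agent.Results.MP_6026f4_co.Classification.result (r s : ℕ) (hr : 1 ≤ r) (hs : 1 ≤ s) :
    IsStieltjesMoment (fun n => (apery r s n : ℝ)) ↔ (r = 1 ∧ s = 1) ∨ (r = 2 ∧ s = 2) := by
  constructor
  · intro h
    by_contra hne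
    rcases (by omega : r = 1 ∨ r = 2 ∨ r = 3 ∨ 4 ≤ r) with rfl | rfl | rfl | h4
    · exact not_sm_one s (by omega) h
    · rcases (by omega : s = 1 ∨ s = 3 ∨ 4 ≤ s) with rfl | rfl | h4
      · exact not_sm_two_one h
      · exact not_sm_two_three h
      · exact not_sm_two s h4 h
    · rcases le_or_gt s 15 with h5 | h5
      · exact not_sm_three_small s hs h5 h
      · exact not_sm_three s h5 h
    · exact not_sm_four r s h4 hs h
  · rintro (⟨rfl, rfl⟩ | ⟨rfl, rfl⟩)
    · exact sm_one_one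
    · exact sm_two_two
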