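import Pool.Agent.Mg.F6026f4p.Gfee81c
import Pool.Agent.Mg.F6026f4p.Gb4facf
import Pool.Agent.Mg.F6026f4p.Gea9f57

open Pool.Agent.MP_6026f4_co

/-- For `r ≥ 4000` and `s ≤ r ^ 2 / 2000` the sequence `a_n(r,s)` is not log-convex. -/
theorem Pool.Agent.Results.MP_6026f4_co.QuadraticNecessary.result (r s : ℕ) (hr : 4000 ≤ r)
    (hs : 2000 * s ≤ r ^ 2) : ∃ n : ℕ, logConvexOp (fun n => (apery r s n : ℝ)) n < 0 := by
  have h := Q.negMain Q.spread (Q.negSmall Q.sumNat) (Q.negWin Q.sumNat) Q.negConc Q.sumNat r s hr hs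
  simpa only [not_forall, not_le] using h
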