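import Pool.Agent.Mg.F6026f4p.Gfee81c
import Pool.Agent.Mg.F6026f4p.Gb4facf
import Pool.Agent.Mg.F6026f4p.G2e670d
import Pool.Agent.Mg.F6026f4p.G28cfa3
import Pool.Agent.Mg.F6026f4p.G990aab

open Pool.Agent.MP_6026f4_co

/-- For `s ≥ C r ^ 2` the sequence `a_n(r,s)` is infinitely log-convex. -/
theorem Pool.Agent.Results.MP_6026f4_co.QuadraticSufficient.result :
    ∃ C : ℕ, ∀ r s : ℕ, 1 ≤ r → C * r ^ 2 ≤ s →
      IsInfLogConvex (fun n => (apery r s n : ℝ)) :=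
  Q.posMain Q.lamStmt (Q.smallStmt Q.powStmt Q.sumNat) (Q.regI Q.ratU Q.ratL Q.tauNat Q.sumNat)
    (Q.regII Q.keyEst Q.planaBd Q.tgNat Q.ratU Q.ratL Q.tauNat Q.sumNat)
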